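import Pool.Agent.W_MP_f12850_co.Data

/-!
# The conference matrix of order 50 has no `±1` eigenvector for `-7`
-/

namespace Pool.Agent.W_MP_f12850_co

open Finset

/-- The entry `(i, j)` of the matrix. -/
def ent (i j : ℕ) : ℤ :=
  if i = j then 0 else if (rowList.getD i 0).testBit j then -1 else 1

/-- A sum that the kernel can compute. -/
def sumTo : ℕ → (ℕ → ℤ) → ℤ
  | 0, _ => 0
  | n + 1, f => sumTo n f + f n

theorem sumTo_eq (n : ℕ) (f : ℕ → ℤ) : sumTo n f = ∑ k ∈ range n, f k := by
  induction n with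
  | zero => rfl
  | succ n ih => rw [sumTo, ih, Finset.sum_range_succ]

theorem ent_gram' : ∀ i < 50, ∀ j < 50,
    sumTo 50 (fun k => ent i k * ent j k) = if i = j then 49 else 0 := by
  decide +kernel

theorem ent_symm : ∀ i < 50, ∀ j < 50, ent i j = ent j i := by
  decide +kernel

theorem ent_gram (i j : ℕ) (hi : i < 50) (hj : j < 50) :
    ∑ k ∈ range 50, ent i k * ent j k = if i = j then 49 else 0 := by
  rw [← sumTo_eq]; exact ent_gram' i hi j hj

/-- The coefficient `(j, k)` of the dependence modulo `5`. -/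
def cf (j k : ℕ) : ℕ := (codeRows.getD j []).getD k 0

/-- The vector `e_{25 + j} - ∑_{k < 25} cf j k • e_k`. -/
def uv (j k : ℕ) : ℤ := if k < 25 then -(cf j k : ℤ) else if k = 25 + j then 1 else 0

theorem uv_mod' : ∀ j < 25, ∀ i < 50,
    (sumTo 50 (fun k => ent i k * uv j k) - 7 * uv j i) % 5 = 0 := by
  decide +kernel

theorem uv_mod (j i : ℕ) (hj : j < 25) (hi : i < 50) :
    (5 : ℤ) ∣ ∑ k ∈ range 50, ent i k * uv j k - 7 * uv j i := by
  rw [← sumTo_eq]; exact Int.dvd_of_emod_eq_zero (uv_mod' j hj i hi)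

/-- The dependence of the last 25 coordinates on the first 25. -/
theorem dep (x : ℕ → ℤ) (hx : ∀ i < 50, ∑ k ∈ range 50, ent i k * x k = -7 * x i) (j : ℕ)
    (hj : j < 25) : (5 : ℤ) ∣ x (25 + j) - ∑ k ∈ range 25, (cf j k : ℤ) * x k := by
  -- `u · C x = -7 (u · x)`
  have h1 : ∑ i ∈ range 50, uv j i * ∑ k ∈ range 50, ent i k * x k
      = -7 * ∑ i ∈ range 50, uv j i * x i := by
    rw [Finset.mul_sum]
    refine Finset.sum_congr rfl fun i hi => ?_
    rw [hx i (Finset.mem_range.mp hi)]; ring
  -- `u · C x = (C u) · x`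
  have h2 : ∑ i ∈ range 50, uv j i * ∑ k ∈ range 50, ent i k * x k
      = ∑ k ∈ range 50, (∑ i ∈ range 50, ent k i * uv j i) * x k := by
    simp_rw [Finset.mul_sum, Finset.sum_mul]
    rw [Finset.sum_comm]
    refine Finset.sum_congr rfl fun k hk => Finset.sum_congr rfl fun i hi => ?_
    rw [ent_symm i (Finset.mem_range.mp hi) k (Finset.mem_range.mp hk)]; ring
  -- modulo `5`
  have h3 : (5 : ℤ) ∣ ∑ k ∈ range 50, (∑ i ∈ range 50, ent k i * uv j i) * x k
      - 7 * ∑ k ∈ range 50, uv j k * x k := by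
    rw [Finset.mul_sum, ← Finset.sum_sub_distrib]
    refine Finset.dvd_sum fun k hk => ?_
    have := uv_mod j k hj (Finset.mem_range.mp hk)
    have e : (∑ i ∈ range 50, ent k i * uv j i) * x k - 7 * (uv j k * x k)
        = (∑ i ∈ range 50, ent k i * uv j i - 7 * uv j k) * x k := by ring
    rw [e]
    exact this.mul_right _
  rw [← h2, h1] at h3
  have h4 : (5 : ℤ) ∣ ∑ k ∈ range 50, uv j k * x k := by omega
  have h5 : ∑ k ∈ range 50, uv j k * x k
      = x (25 + j) - ∑ k ∈ range 25, (cf j k : ℤ) * x k := by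
    rw [show (50 : ℕ) = 25 + 25 by norm_num, Finset.sum_range_add]
    have e1 : ∑ k ∈ range 25, uv j k * x k = - ∑ k ∈ range 25, (cf j k : ℤ) * x k := by
      rw [← Finset.sum_neg_distrib]
      refine Finset.sum_congr rfl fun k hk => ?_
      have := Finset.mem_range.mp hk
      simp [uv, this]
    have e2 : ∑ k ∈ range 25, uv j (25 + k) * x (25 + k) = x (25 + j) := by
      rw [Finset.sum_eq_single j]
      · simp [uv]
      · intro k _ hk
        simp [uv, hk]
      · intro h; exact absurd (Finset.mem_range.mpr hj) h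
    rw [e1, e2]; ring
  rw [h5] at h4
  exact h4

/-- The list of the bits `b s, b (s + 1), …`. -/
def bits (b : ℕ → Bool) : ℕ → ℕ → List Bool
  | _, 0 => []
  | s, n + 1 => b s :: bits b (s + 1) n

theorem bits_length (b : ℕ → Bool) (s n : ℕ) : (bits b s n).length = n := by
  induction n generalizing s with
  | zero => rfl
  | succ n ih => simp [bits, ih]

theorem val_bits (x : ℕ → ℤ) (b : ℕ → Bool) (hb : ∀ k, (5 : ℤ) ∣ (sg (b k) : ℤ) - x k) :
    ∀ (r : List ℕ) (s : ℕ),
      (5 : ℤ) ∣ (val r (bits b s r.length) : ℤ) - ∑ k ∈ range r.length, (r.getD k 0 : ℤ) * x (s + k) := by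
  intro r
  induction r with
  | nil => intro s; simp [val]
  | cons m ms ih =>
    intro s
    have h := ih (s + 1)
    rw [List.length_cons, bits, val, Finset.sum_range_succ']
    simp only [List.getD_cons_succ, List.getD_cons_zero, Nat.add_zero]
    have e : ∀ k, x (s + (k + 1)) = x (s + 1 + k) := fun k => by congr 1; ring
    simp only [e]
    obtain ⟨c, hc⟩ := h
    obtain ⟨d, hd⟩ := hb s
    refine ⟨c + m * d, ?_⟩
    push_cast
    linear_combination hc + (m : ℤ) * hd

/-- There is no `±1` eigenvector for the eigenvalue `-7`. -/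
theorem no_pm (x : ℕ → ℤ) (hpm : ∀ k, x k = 1 ∨ x k = -1)
    (hx : ∀ i < 50, ∑ k ∈ range 50, ent i k * x k = -7 * x i) : False := by
  wlog h0 : x 0 = 1 generalizing x with H
  · refine H (fun k => - x k) (fun k => ?_) (fun i hi => ?_) ?_
    · rcases hpm k with h | h <;> simp [h]
    · have := hx i hi
      simp only [mul_neg, Finset.sum_neg_distrib]
      linarith
    · rcases hpm 0 with h | h
      · exact absurd h h0
      · simp [h]
  set b : ℕ → Bool := fun k => decide (x k = 1) with hb
  have hsg : ∀ k, (5 : ℤ) ∣ (sg (b k) : ℤ) - x k := by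
    intro k
    rcases hpm k with h | h
    · simp [hb, h, sg]
    · simp [hb, h, sg]
  obtain ⟨row, hrow, hne⟩ := main_sound 8 16 codeRows codeRows_rows search_ok (bits b 1 24)
    (bits_length b 1 24)
  obtain ⟨j, hj', hjr⟩ := List.getElem_of_mem hrow
  have hj : j < 25 := by have := codeRows_length; omega
  apply hne
  have hb0 : b 0 = true := by simp [hb, h0]
  have e0 : true :: bits b 1 24 = bits b 0 25 := by
    change true :: bits b 1 24 = b 0 :: bits b 1 24
    rw [hb0]
  rw [e0]
  have hlen : row.length = 25 := codeRows_rows _ hrow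
  have hv := val_bits x b hsg row 0
  rw [hlen] at hv
  have hcf : ∀ k, (row.getD k 0 : ℤ) = (cf j k : ℤ) := by
    intro k
    have : codeRows.getD j [] = row := by
      rw [← hjr]
      exact List.getD_eq_getElem _ _ hj'
    rw [cf, this]
  simp only [hcf, Nat.zero_add] at hv
  have hd := dep x hx j hj
  rcases hpm (25 + j) with h | h
  · left; omega
  · right; omega

end Pool.Agent.W_MP_f12850_co
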