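import Pool.Agent.W_MP_f12850_co.Search

/-!
# The conference matrix of order 50: the data

`rowN i` is the natural number whose bit `j` says whether the entry `(i, j)` is `-1`.
`codeRows` lists, modulo `5`, how the last 25 coordinates of a vector `x` with `C x = -7 x`
depend on the first 25.
-/

namespace Pool.Agent.W_MP_f12850_co

/-- The rows of the matrix: bit `j` of the `i`-th number is set exactly when the entry `(i, j)`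
is `-1`. -/
def rowList : List ℕ :=
  [0, 304539592506672, 274378621082848, 852265799622608,
    416793007803914, 270831147661830, 1069348587468300, 166287436549388,
    1069333699434634, 726088164894840, 1055987689308382, 114523532338110,
    758839866384750, 645672427264610, 693019638371924, 801425478454840,
    740615996224810, 881072325094598, 36100369013660, 384007951185214,
    33746384571630, 430503375583838, 1097325316655392, 449086032359616,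
    151850495862672, 753446466760690, 691259329239506, 250519914386680,
    50485425433160, 593502403744018, 641990369518756, 933877166771116,
    891647610327916, 1039836637103638, 1125865547621248, 214296204181382,
    372217126265586, 908537325730954, 321804628313634, 85072501113158,
    631699397091484, 392789413097656, 443946450306026, 547166814251348,
    718215782650550, 434749982595124, 856093488639348, 347506003253220,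
    262197031339354, 89231808788296]

/-- The dependence of the last 25 coordinates on the first 25, modulo `5`. -/
def codeRows : List (List ℕ) :=
  [[3, 0, 4, 3, 1, 1, 3, 1, 4, 0, 1, 1, 3, 0, 4, 1, 0, 2, 0, 0, 3, 2, 2, 4, 2],
   [0, 3, 4, 2, 0, 0, 2, 0, 1, 0, 2, 0, 0, 3, 2, 0, 1, 2, 1, 1, 2, 2, 1, 4, 3],
   [4, 1, 0, 0, 1, 3, 0, 1, 2, 2, 3, 0, 0, 1, 4, 3, 0, 0, 3, 4, 3, 0, 1, 4, 3],
   [2, 2, 3, 4, 0, 1, 0, 0, 3, 4, 3, 1, 1, 3, 2, 1, 4, 2, 4, 0, 4, 3, 1, 0, 4],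
   [4, 0, 1, 1, 1, 0, 3, 0, 4, 3, 3, 2, 1, 4, 0, 3, 0, 1, 1, 1, 2, 3, 4, 0, 1],
   [1, 1, 4, 0, 1, 1, 0, 1, 4, 2, 4, 2, 1, 4, 3, 1, 2, 1, 1, 3, 3, 4, 3, 3, 4],
   [2, 1, 1, 0, 1, 2, 1, 4, 3, 0, 2, 4, 2, 4, 2, 4, 3, 3, 0, 0, 2, 3, 0, 0, 3],
   [2, 2, 1, 0, 3, 2, 0, 4, 3, 4, 4, 2, 1, 2, 2, 2, 0, 4, 2, 0, 0, 4, 2, 2, 4],
   [1, 4, 1, 3, 2, 0, 3, 1, 3, 3, 2, 2, 1, 1, 1, 0, 2, 3, 0, 1, 1, 1, 3, 0, 0],
   [3, 0, 0, 4, 1, 1, 3, 2, 2, 3, 0, 0, 1, 2, 0, 0, 2, 3, 2, 1, 1, 3, 3, 3, 0],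
   [4, 0, 4, 4, 3, 3, 3, 3, 3, 2, 1, 0, 2, 0, 1, 4, 4, 3, 2, 1, 3, 4, 4, 0, 0],
   [2, 4, 2, 0, 0, 2, 3, 4, 4, 1, 4, 1, 0, 0, 1, 2, 1, 2, 4, 0, 0, 4, 0, 3, 3],
   [4, 4, 3, 1, 3, 0, 1, 3, 3, 2, 0, 3, 0, 4, 4, 2, 4, 1, 4, 3, 1, 4, 0, 2, 2],
   [3, 4, 0, 4, 1, 2, 1, 2, 3, 0, 3, 3, 3, 3, 4, 4, 3, 1, 3, 0, 2, 3, 3, 0, 0],
   [0, 4, 2, 1, 2, 2, 3, 3, 3, 4, 1, 2, 1, 4, 3, 0, 0, 1, 3, 0, 1, 3, 4, 3, 1],
   [2, 4, 3, 3, 0, 2, 3, 0, 2, 3, 1, 0, 4, 2, 2, 4, 4, 4, 3, 2, 2, 4, 2, 3, 3],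
   [1, 3, 4, 2, 4, 3, 0, 3, 3, 0, 4, 2, 4, 3, 1, 3, 1, 3, 3, 3, 0, 2, 0, 1, 1],
   [3, 4, 3, 1, 3, 2, 0, 1, 1, 4, 4, 3, 3, 4, 1, 3, 2, 1, 1, 0, 1, 3, 3, 3, 1],
   [4, 0, 2, 4, 3, 2, 4, 4, 1, 1, 3, 1, 0, 0, 2, 4, 3, 2, 0, 3, 2, 1, 2, 4, 1],
   [0, 1, 3, 0, 1, 0, 0, 2, 0, 2, 3, 2, 4, 1, 3, 4, 4, 2, 3, 0, 2, 3, 3, 2, 1],
   [1, 2, 1, 3, 1, 0, 3, 3, 4, 0, 2, 4, 2, 2, 4, 0, 0, 0, 2, 4, 1, 1, 4, 1, 4],
   [2, 2, 2, 3, 2, 0, 3, 1, 2, 0, 1, 4, 0, 3, 4, 3, 1, 4, 1, 3, 1, 4, 0, 0, 1],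
   [3, 4, 4, 4, 1, 0, 1, 3, 2, 4, 0, 1, 1, 2, 2, 4, 2, 2, 2, 2, 1, 2, 3, 2, 3],
   [3, 0, 3, 0, 2, 2, 3, 0, 0, 4, 0, 0, 1, 0, 1, 2, 3, 0, 3, 2, 1, 2, 3, 4, 1],
   [4, 4, 4, 2, 2, 3, 1, 3, 4, 1, 3, 4, 3, 2, 1, 0, 3, 2, 1, 0, 0, 4, 3, 1, 3]]

theorem search_ok : search 8 (2 ^ (2 ^ 16) - 1) (codeRows.map (start 9)) = true := by
  decide +kernel

theorem codeRows_length : codeRows.length = 25 := by decide +kernel

theorem codeRows_rows : ∀ row ∈ codeRows, row.length = (8 + 1) + 16 := by decide +kernel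

end Pool.Agent.W_MP_f12850_co
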