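import Mathlib

/-!
# Symmetric conference matrices, S-equivalence, the regular Belevitch form

The definitions of the problem MP_f12850_co, for real matrices.
-/

namespace Pool.Agent.W_MP_f12850_co

open Matrix

/-- A symmetric conference matrix of order `n`: a real `n × n` matrix with zero diagonal,
off-diagonal entries in `{1, -1}`, `Cᵀ = C` and `C Cᵀ = (n - 1) I`. -/
structure IsSymConference {n : ℕ} (C : Matrix (Fin n) (Fin n) ℝ) : Prop where
  diag : ∀ i, C i i = 0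
  offDiag : ∀ i j, i ≠ j → C i j = 1 ∨ C i j = -1
  symm : Cᵀ = C
  gram : C * Cᵀ = ((n : ℝ) - 1) • (1 : Matrix (Fin n) (Fin n) ℝ)

/-- One move turning `C` into `C'`: (i) change the sign of the `i`-th row and of the `i`-th column,
or (ii) apply one permutation to the rows and the same permutation to the columns. -/
inductive SMove {n : ℕ} (C C' : Matrix (Fin n) (Fin n) ℝ) : Prop
  | signChange (i : Fin n)
      (h : ∀ j k, C' j k = (if j = i then -1 else 1) * C j k * (if k = i then -1 else 1)) :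
      SMove C C'
  | perm (σ : Equiv.Perm (Fin n)) (h : ∀ j k, C' j k = C (σ j) (σ k)) : SMove C C'

/-- S-equivalence: some finite sequence of moves turns `C` into `C'`. -/
def SEquiv {n : ℕ} (C C' : Matrix (Fin n) (Fin n) ℝ) : Prop := Relation.ReflTransGen SMove C C'

/-- The `m × m` all-ones matrix `J`. -/
def allOnes (m : ℕ) : Matrix (Fin m) (Fin m) ℝ := Matrix.of fun _ _ => 1

/-- The matrix `𝓑(N)` of order `n = m + m`: the `2 × 2` block matrix with blocks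
`2 (I + N Nᵀ)⁻¹ - I`, `-2 (I + N Nᵀ)⁻¹ N`, `-2 (I + Nᵀ N)⁻¹ Nᵀ`, `I - 2 (I + Nᵀ N)⁻¹`, each
multiplied by `√(n - 1)`. -/
noncomputable def belevitch {m : ℕ} (N : Matrix (Fin m) (Fin m) ℝ) :
    Matrix (Fin (m + m)) (Fin (m + m)) ℝ :=
  Matrix.reindex finSumFinEquiv finSumFinEquiv
    (Matrix.fromBlocks
      (√(((m + m : ℕ) : ℝ) - 1) • ((2 : ℝ) • (1 + N * Nᵀ)⁻¹ - 1))
      (√(((m + m : ℕ) : ℝ) - 1) • ((-2 : ℝ) • ((1 + N * Nᵀ)⁻¹ * N)))
      (√(((m + m : ℕ) : ℝ) - 1) • ((-2 : ℝ) • ((1 + Nᵀ * N)⁻¹ * Nᵀ)))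
      (√(((m + m : ℕ) : ℝ) - 1) • (1 - (2 : ℝ) • (1 + Nᵀ * N)⁻¹)))

/-- Property (R): `C = 𝓑(N)` for a real `m × m` matrix `N` with `N J = Nᵀ J = k J` for some real
`k`. -/
def PropertyR {m : ℕ} (C : Matrix (Fin (m + m)) (Fin (m + m)) ℝ) : Prop :=
  ∃ (N : Matrix (Fin m) (Fin m) ℝ) (k : ℝ),
    N * allOnes m = k • allOnes m ∧ Nᵀ * allOnes m = k • allOnes m ∧ C = belevitch N

end Pool.Agent.W_MP_f12850_co
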