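import Pool.Agent.W_MP_f12850_co.Defs

/-!
# Property (R) in order 50 gives a `±1` eigenvector for `-7`
-/

namespace Pool.Agent.W_MP_f12850_co

open Matrix

/-- There is a vector of `±1` entries with `C x = -7 x`. -/
def HasPM {n : ℕ} (C : Matrix (Fin n) (Fin n) ℝ) : Prop :=
  ∃ x : Fin n → ℝ, (∀ i, x i = 1 ∨ x i = -1) ∧ ∀ i, ∑ j, C i j * x j = -7 * x i

/-- Zero diagonal and `±1` off the diagonal. -/
def ZeroPM {n : ℕ} (C : Matrix (Fin n) (Fin n) ℝ) : Prop :=
  (∀ i, C i i = 0) ∧ ∀ i j, i ≠ j → C i j = 1 ∨ C i j = -1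

theorem SMove.zeroPM {n : ℕ} {C C' : Matrix (Fin n) (Fin n) ℝ} (h : SMove C C') (hC : ZeroPM C) :
    ZeroPM C' := by
  rcases h with ⟨i, h⟩ | ⟨σ, h⟩
  · refine ⟨fun j => ?_, fun j k hjk => ?_⟩
    · rw [h, hC.1 j]; simp
    · rw [h]
      rcases hC.2 j k hjk with e | e <;> rw [e] <;> split_ifs <;> simp
  · refine ⟨fun j => ?_, fun j k hjk => ?_⟩
    · rw [h, hC.1]
    · rw [h]; exact hC.2 _ _ (fun e => hjk (σ.injective e))

theorem SMove.hasPM {n : ℕ} {C C' : Matrix (Fin n) (Fin n) ℝ} (h : SMove C C') (hC : HasPM C') :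
    HasPM C := by
  obtain ⟨x, hx, hx'⟩ := hC
  rcases h with ⟨i, h⟩ | ⟨σ, h⟩
  · refine ⟨fun j => (if j = i then -1 else 1) * x j, fun j => ?_, fun j => ?_⟩
    · rcases hx j with e | e <;> simp only [e] <;> split_ifs <;> simp
    · have hj := hx' j
      have e : ∑ k, C j k * ((if k = i then -1 else 1) * x k)
          = (if j = i then -1 else 1) * ∑ k, C' j k * x k := by
        rw [Finset.mul_sum]
        refine Finset.sum_congr rfl fun k _ => ?_
        rw [h j k]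
        by_cases hji : j = i <;> by_cases hki : k = i <;> simp [hji, hki]
      rw [e, hj]; ring
  · refine ⟨fun j => x (σ.symm j), fun j => hx _, fun j => ?_⟩
    have hj := hx' (σ.symm j)
    rw [← hj]
    rw [← Equiv.sum_comp σ (fun k => C j k * x (σ.symm k))]
    refine Finset.sum_congr rfl fun k _ => ?_
    rw [h]; simp

theorem SEquiv.zeroPM {n : ℕ} {C C' : Matrix (Fin n) (Fin n) ℝ} (h : SEquiv C C')
    (hC : ZeroPM C) : ZeroPM C' := by
  unfold SEquiv at h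
  induction h with
  | refl => exact hC
  | tail _ h ih => exact h.zeroPM ih

theorem SEquiv.hasPM {n : ℕ} {C C' : Matrix (Fin n) (Fin n) ℝ} (h : SEquiv C C')
    (hC : HasPM C') : HasPM C := by
  unfold SEquiv at h
  induction h with
  | refl => exact hC
  | tail _ h ih => exact ih (h.hasPM hC)

theorem isUnit_one_add {m : ℕ} (N : Matrix (Fin m) (Fin m) ℝ) : IsUnit (1 + N * Nᵀ).det := by
  have h1 : (1 + N * Nᵀ).PosDef := by
    have h := Matrix.posSemidef_self_mul_conjTranspose N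
    rw [Matrix.conjTranspose_eq_transpose_of_trivial] at h
    exact Matrix.PosDef.one.add_posSemidef h
  exact h1.det_pos.ne'.isUnit

theorem mulVec_ones {m : ℕ} {N : Matrix (Fin m) (Fin m) ℝ} {k : ℝ}
    (h : N * allOnes m = k • allOnes m) : N *ᵥ (fun _ => (1 : ℝ)) = fun _ => k := by
  funext i
  have := congrFun (congrFun h i) i
  simp only [Matrix.mul_apply, allOnes, Matrix.of_apply, Matrix.smul_apply, smul_eq_mul,
    mul_one] at this
  simpa [Matrix.mulVec, dotProduct] using this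

theorem inv_mulVec_ones {m : ℕ} {N : Matrix (Fin m) (Fin m) ℝ} {k : ℝ}
    (h1 : N *ᵥ (fun _ => (1 : ℝ)) = fun _ => k) (h2 : Nᵀ *ᵥ (fun _ => (1 : ℝ)) = fun _ => k) :
    (1 + N * Nᵀ)⁻¹ *ᵥ (fun _ => (1 : ℝ)) = fun _ => (1 + k ^ 2)⁻¹ := by
  have hk : (1 + k ^ 2) ≠ 0 := by positivity
  have ek : ∀ c : ℝ, (fun _ : Fin m => c) = c • (fun _ : Fin m => (1 : ℝ)) := by
    intro c; funext i; simp
  have e : (1 + N * Nᵀ) *ᵥ (fun _ => (1 : ℝ)) = fun _ => (1 + k ^ 2) := by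
    rw [Matrix.add_mulVec, Matrix.one_mulVec, ← Matrix.mulVec_mulVec, h2, ek k,
      Matrix.mulVec_smul, h1]
    funext i
    simp; ring
  have e2 := congrArg (fun v => (1 + N * Nᵀ)⁻¹ *ᵥ v) e
  simp only [Matrix.mulVec_mulVec] at e2
  rw [Matrix.nonsing_inv_mul _ (isUnit_one_add N), Matrix.one_mulVec, ek (1 + k ^ 2),
    Matrix.mulVec_smul] at e2
  have e3 : (1 + N * Nᵀ)⁻¹ *ᵥ (fun _ => (1 : ℝ)) = (1 + k ^ 2)⁻¹ • (fun _ : Fin m => (1 : ℝ)) := by
    conv_rhs => rw [e2]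
    rw [smul_smul, inv_mul_cancel₀ hk, one_smul]
  rw [e3]; funext i; simp

/-- The row sums of the blocks of `𝓑(N)`. -/
theorem belevitch_sums {m : ℕ} {N : Matrix (Fin m) (Fin m) ℝ} {k : ℝ}
    (h1 : N * allOnes m = k • allOnes m) (h2 : Nᵀ * allOnes m = k • allOnes m) (i : Fin m) :
    (∑ j, belevitch N (Fin.castAdd m i) (Fin.castAdd m j)
        = √(((m + m : ℕ) : ℝ) - 1) * (2 * (1 + k ^ 2)⁻¹ - 1)) ∧
      (∑ j, belevitch N (Fin.castAdd m i) (Fin.natAdd m j)
        = √(((m + m : ℕ) : ℝ) - 1) * (-2 * (k * (1 + k ^ 2)⁻¹))) ∧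
      (∑ j, belevitch N (Fin.natAdd m i) (Fin.castAdd m j)
        = √(((m + m : ℕ) : ℝ) - 1) * (-2 * (k * (1 + k ^ 2)⁻¹))) ∧
      (∑ j, belevitch N (Fin.natAdd m i) (Fin.natAdd m j)
        = √(((m + m : ℕ) : ℝ) - 1) * (1 - 2 * (1 + k ^ 2)⁻¹)) := by
  have v1 := mulVec_ones h1
  have v2 := mulVec_ones h2
  have w1 := inv_mulVec_ones v1 v2
  have v1' : Nᵀᵀ *ᵥ (fun _ => (1 : ℝ)) = fun _ => k := by rw [Matrix.transpose_transpose]; exact v1
  have w2 := inv_mulVec_ones v2 v1'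
  rw [Matrix.transpose_transpose] at w2
  have ek : ∀ c : ℝ, (fun _ : Fin m => c) = c • (fun _ : Fin m => (1 : ℝ)) := by
    intro c; funext i; simp
  have toVec : ∀ (M : Matrix (Fin m) (Fin m) ℝ), ∑ j, M i j = (M *ᵥ (fun _ => (1 : ℝ))) i := by
    intro M; simp [Matrix.mulVec, dotProduct]
  have u1 : ((1 + N * Nᵀ)⁻¹ * N) *ᵥ (fun _ => (1 : ℝ)) = fun _ => k * (1 + k ^ 2)⁻¹ := by
    rw [← Matrix.mulVec_mulVec, v1, ek k, Matrix.mulVec_smul, w1]
    funext i; simp
  have u2 : ((1 + Nᵀ * N)⁻¹ * Nᵀ) *ᵥ (fun _ => (1 : ℝ)) = fun _ => k * (1 + k ^ 2)⁻¹ := by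
    rw [← Matrix.mulVec_mulVec, v2, ek k, Matrix.mulVec_smul, w2]
    funext i; simp
  refine ⟨?_, ?_, ?_, ?_⟩
  · simp only [belevitch, Matrix.reindex_apply, Matrix.submatrix_apply,
      finSumFinEquiv_symm_apply_castAdd, Matrix.fromBlocks_apply₁₁]
    rw [toVec, Matrix.smul_mulVec, Matrix.sub_mulVec, Matrix.smul_mulVec, Matrix.one_mulVec, w1]
    simp
  · simp only [belevitch, Matrix.reindex_apply, Matrix.submatrix_apply,
      finSumFinEquiv_symm_apply_castAdd, finSumFinEquiv_symm_apply_natAdd,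
      Matrix.fromBlocks_apply₁₂]
    rw [toVec, Matrix.smul_mulVec, Matrix.smul_mulVec, u1]
    simp
  · simp only [belevitch, Matrix.reindex_apply, Matrix.submatrix_apply,
      finSumFinEquiv_symm_apply_castAdd, finSumFinEquiv_symm_apply_natAdd,
      Matrix.fromBlocks_apply₂₁]
    rw [toVec, Matrix.smul_mulVec, Matrix.smul_mulVec, u2]
    simp
  · simp only [belevitch, Matrix.reindex_apply, Matrix.submatrix_apply,
      finSumFinEquiv_symm_apply_natAdd, Matrix.fromBlocks_apply₂₂]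
    rw [toVec, Matrix.smul_mulVec, Matrix.sub_mulVec, Matrix.smul_mulVec, Matrix.one_mulVec, w2]
    simp

theorem odd_sum (f : Fin 25 → ℝ) (hf : ∀ j, f j = 1 ∨ f j = -1) :
    ∃ B : ℤ, ∑ j, f j = 2 * (B : ℝ) + 1 := by
  classical
  refine ⟨12 - ∑ j, (if f j = 1 then (0 : ℤ) else 1), ?_⟩
  have e : ∀ j, f j = 1 - 2 * (((if f j = 1 then (0 : ℤ) else 1 : ℤ)) : ℝ) := by
    intro j
    rcases hf j with e | e <;> rw [e] <;> norm_num
  rw [Finset.sum_congr rfl fun j _ => e j, Finset.sum_sub_distrib, ← Finset.mul_sum]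
  push_cast
  simp
  ring

theorem even_sum (f : Fin 25 → ℝ) (i : Fin 25) (h0 : f i = 0)
    (hf : ∀ j, j ≠ i → f j = 1 ∨ f j = -1) : ∃ A : ℤ, ∑ j, f j = 2 * (A : ℝ) := by
  classical
  obtain ⟨B, hB⟩ := odd_sum (fun j => f j + if j = i then 1 else 0) (by
    intro j
    by_cases hj : j = i
    · left; simp [hj, h0]
    · simpa [hj] using hf j hj)
  refine ⟨B, ?_⟩
  rw [Finset.sum_add_distrib] at hB
  simp at hB
  linarith

/-- In order 50, property (R) gives a `±1` eigenvector for `-7`. -/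
theorem hasPM_of_propertyR {C : Matrix (Fin (25 + 25)) (Fin (25 + 25)) ℝ} (h0 : ZeroPM C)
    (h : PropertyR C) : HasPM C := by
  obtain ⟨N, k, h1, h2, rfl⟩ := h
  have hs : √(((25 + 25 : ℕ) : ℝ) - 1) = 7 := by
    rw [show (((25 + 25 : ℕ) : ℝ) - 1) = 7 ^ 2 by norm_num]
    exact Real.sqrt_sq (by norm_num)
  have hsum := belevitch_sums h1 h2
  rw [hs] at hsum
  have hk : (1 + k ^ 2) ≠ 0 := by positivity
  set a : ℝ := 7 * (2 * (1 + k ^ 2)⁻¹ - 1) with ha
  set b : ℝ := 7 * (-2 * (k * (1 + k ^ 2)⁻¹)) with hb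
  have hab : a ^ 2 + b ^ 2 = 49 := by
    rw [ha, hb]; field_simp; ring
  -- the row sums of the first row are integers of the right parity
  obtain ⟨A, hA⟩ := even_sum (fun j => belevitch N (Fin.castAdd 25 0) (Fin.castAdd 25 j)) 0
    (h0.1 _) (fun j hj => h0.2 _ _ (fun e => hj (Fin.castAdd_injective 25 25 e).symm))
  obtain ⟨B, hB⟩ := odd_sum (fun j => belevitch N (Fin.castAdd 25 0) (Fin.natAdd 25 j))
    (fun j => h0.2 _ _ (by
      intro e
      have := congrArg Fin.val e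
      simp at this
      ))
  rw [(hsum 0).1] at hA
  rw [(hsum 0).2.1] at hB
  rw [hA, hB] at hab
  have hAB : A ^ 2 + B ^ 2 + B = 12 := by
    have : ((A : ℝ)) ^ 2 + (B : ℝ) ^ 2 + B = 12 := by linarith
    exact_mod_cast this
  have hA0 : A = 0 := by
    have hB1 : -4 ≤ B := by nlinarith [sq_nonneg A]
    have hB2 : B ≤ 3 := by nlinarith [sq_nonneg A]
    have hA1 : -3 ≤ A := by nlinarith [sq_nonneg (2 * B + 1)]
    have hA2 : A ≤ 3 := by nlinarith [sq_nonneg (2 * B + 1)]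
    clear hA hB hab
    interval_cases A <;> interval_cases B <;> omega
  subst hA0
  have ha0 : a = 0 := by rw [hA]; simp
  have hb7 : b = 7 ∨ b = -7 := by
    have : (b - 7) * (b + 7) = 0 := by
      rw [hB]
      push_cast at hab
      linarith
    rcases mul_eq_zero.mp this with e | e
    · left; linarith
    · right; linarith
  -- the eigenvector `(1; ε 1)`
  obtain ⟨ε, hε, hbε⟩ : ∃ ε : ℝ, (ε = 1 ∨ ε = -1) ∧ ε * b = -7 := by
    rcases hb7 with e | e
    · exact ⟨-1, Or.inr rfl, by rw [e]; norm_num⟩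
    · exact ⟨1, Or.inl rfl, by rw [e]; norm_num⟩
  have hεε : ε * ε = 1 := by rcases hε with e | e <;> rw [e] <;> norm_num
  refine ⟨Fin.append (fun _ : Fin 25 => (1 : ℝ)) (fun _ : Fin 25 => ε), ?_, ?_⟩
  · intro i
    refine Fin.addCases (fun i => ?_) (fun i => ?_) i
    · left; simp
    · rw [Fin.append_right]; exact hε
  · intro i
    rw [Fin.sum_univ_add]
    simp only [Fin.append_left, Fin.append_right, mul_one]
    rw [← Finset.sum_mul]
    refine Fin.addCases (fun i => ?_) (fun i => ?_) i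
    · rw [(hsum i).1, (hsum i).2.1, Fin.append_left, ha0]
      linarith
    · rw [(hsum i).2.2.1, (hsum i).2.2.2, Fin.append_right]
      have e : 7 * (1 - 2 * (1 + k ^ 2)⁻¹) = - a := by rw [ha]; ring
      rw [e, ha0]
      have : b = -7 * ε := by
        calc b = (ε * ε) * b := by rw [hεε]; ring
          _ = ε * (ε * b) := by ring
          _ = _ := by rw [hbε]; ring
      rw [this]; ring

end Pool.Agent.W_MP_f12850_co
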