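import Mathlib

/-!
# A kernel-checkable exhaustive search for `±1` vectors in a code modulo 5

`val ms bs` is the natural number `∑ mᵢ sᵢ` with `sᵢ = 1` for the bit `true` and `sᵢ = 4` (that is,
`-1` modulo `5`) for the bit `false`.  For a list `rows` of rows (lists of `h + l` residues modulo
`5`), the Boolean `search` certifies that for every list of `h + l` bits that starts with `true`
there is a row whose value is neither `1` nor `4` modulo `5`.
-/

namespace Pool.Agent.W_MP_f12850_co

/-- The value of a bit: `true` is `1`, `false` is `-1 = 4` modulo `5`. -/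
def sg : Bool → ℕ
  | true => 1
  | false => 4

/-- The value of a row at a list of bits. -/
def val : List ℕ → List Bool → ℕ
  | m :: ms, b :: bs => m * sg b + val ms bs
  | _, _ => 0

/-- Five masks, indexed by the residues modulo `5`. -/
structure T5 where
  a0 : ℕ
  a1 : ℕ
  a2 : ℕ
  a3 : ℕ
  a4 : ℕ

/-- The mask of a residue. -/
def T5.get (t : T5) : ℕ → ℕ
  | 0 => t.a0
  | 1 => t.a1
  | 2 => t.a2
  | 3 => t.a3
  | _ => t.a4

/-- The position of a list of bits. -/
def idx : List Bool → ℕ
  | [] => 0
  | true :: bs => 2 ^ bs.length + idx bs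
  | false :: bs => idx bs

/-- One component of the next table. -/
def nxt (t : T5) (k m v : ℕ) : ℕ :=
  (t.get ((v + m) % 5)) ||| ((t.get ((v + 4 * m) % 5)) <<< (2 ^ k))

/-- The table of a row: the mask of `v` has a one at the position `idx bs` whenever the value of
the row at `bs` is `v` modulo `5`. -/
def tab : List ℕ → T5
  | [] => ⟨1, 0, 0, 0, 0⟩
  | m :: ms =>
    match tab ms with
    | t => ⟨nxt t ms.length m 0, nxt t ms.length m 1, nxt t ms.length m 2, nxt t ms.length m 3,
        nxt t ms.length m 4⟩

/-- The table of the positions at which `a + value` is `1` or `4` modulo `5`. -/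
def good (t : T5) : T5 :=
  ⟨t.get 1 ||| t.get 4, t.get 0 ||| t.get 3, t.get 4 ||| t.get 2, t.get 3 ||| t.get 1,
    t.get 2 ||| t.get 0⟩

/-- A row under way: what is left of its first part, the residue so far, the table of its second
part. -/
structure Item where
  r : List ℕ
  a : ℕ
  u : T5

/-- Use one more bit. -/
def Item.step (b : Bool) (it : Item) : Item :=
  match it.r with
  | [] => ⟨[], it.a, it.u⟩
  | m :: ms => ⟨ms, (it.a + m * sg b) % 5, it.u⟩

/-- Intersect the masks until nothing is left. -/
def leaf : List Item → ℕ → Bool
  | [], _ => false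
  | it :: L, acc =>
    match acc &&& it.u.get (it.a % 5) with
    | 0 => true
    | n + 1 => leaf L (n + 1)

/-- The search over the first `h` bits. -/
def search : ℕ → ℕ → List Item → Bool
  | 0, top, L => leaf L top
  | h + 1, top, L => search h top (L.map (Item.step true)) && search h top (L.map (Item.step false))

theorem idx_lt (bs : List Bool) : idx bs < 2 ^ bs.length := by
  induction bs with
  | nil => simp [idx]
  | cons b bs ih =>
    cases b
    · simp only [idx, List.length_cons, pow_succ]; omega
    · simp only [idx, List.length_cons, pow_succ]; omega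

theorem tab_get_cons (m : ℕ) (ms : List ℕ) (v : ℕ) (hv : v < 5) :
    (tab (m :: ms)).get v = nxt (tab ms) ms.length m v := by
  interval_cases v <;> rfl

/-- The table is sound. -/
theorem tab_sound : ∀ (ms : List ℕ) (bs : List Bool), bs.length = ms.length →
    ∀ v < 5, val ms bs % 5 = v → ((tab ms).get v).testBit (idx bs) = true := by
  intro ms
  induction ms with
  | nil =>
    intro bs hbs v hv h
    have : bs = [] := by simpa using hbs
    subst this
    simp only [val] at h
    subst h
    rfl
  | cons m ms ih =>
    intro bs hbs v hv h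
    cases bs with
    | nil => simp at hbs
    | cons b bs =>
      have hl : bs.length = ms.length := by simpa using hbs
      rw [tab_get_cons m ms v hv]
      unfold nxt
      rw [Nat.testBit_or, Bool.or_eq_true]
      cases b
      · left
        simp only [val, sg] at h
        apply ih bs hl
        · exact Nat.mod_lt _ (by norm_num)
        · omega
      · right
        simp only [val, sg] at h
        have e : idx (true :: bs) = 2 ^ ms.length + idx bs := by rw [← hl]; rfl
        rw [e, Nat.testBit_shiftLeft, Nat.add_sub_cancel_left, Bool.and_eq_true]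
        refine ⟨by simp, ?_⟩
        apply ih bs hl
        · exact Nat.mod_lt _ (by norm_num)
        · omega

/-- The second table is sound. -/
theorem good_sound (ms : List ℕ) (bs : List Bool) (hl : bs.length = ms.length) (a : ℕ)
    (h : (a + val ms bs) % 5 = 1 ∨ (a + val ms bs) % 5 = 4) :
    ((good (tab ms)).get (a % 5)).testBit (idx bs) = true := by
  have key := tab_sound ms bs hl
  have h5 : a % 5 < 5 := Nat.mod_lt _ (by norm_num)
  have hv5 : val ms bs % 5 < 5 := Nat.mod_lt _ (by norm_num)
  rw [Nat.add_mod] at h
  generalize ha : a % 5 = r at *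
  generalize hw : val ms bs % 5 = w at *
  have hk := key w hv5 rfl
  interval_cases r <;> interval_cases w <;> simp at h <;>
    simp only [good, T5.get, Nat.testBit_or, Bool.or_eq_true] at hk ⊢ <;> tauto

/-- The item is compatible with the bits. -/
def Item.ok (it : Item) (bs₁ bs₂ : List Bool) : Prop :=
  (it.u.get ((it.a + val it.r bs₁) % 5)).testBit (idx bs₂) = true

theorem leaf_sound (bs₂ : List Bool) : ∀ (L : List Item) (acc : ℕ),
    acc.testBit (idx bs₂) = true → leaf L acc = true → ∃ it ∈ L, ¬ it.ok [] bs₂ := by
  intro L
  induction L with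
  | nil => intro acc _ h; simp [leaf] at h
  | cons it L ih =>
    intro acc hacc h
    by_cases hok : it.ok [] bs₂
    · have hbit : (acc &&& it.u.get (it.a % 5)).testBit (idx bs₂) = true := by
        rw [Nat.testBit_and, hacc]
        have : val it.r [] = 0 := by cases it.r <;> rfl
        unfold Item.ok at hok
        rw [this, Nat.add_zero] at hok
        rw [hok]; rfl
      unfold leaf at h
      generalize hn : acc &&& it.u.get (it.a % 5) = n at *
      cases n with
      | zero => simp at hbit
      | succ n =>
        obtain ⟨it', hm, hne⟩ := ih (n + 1) hbit h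
        exact ⟨it', List.mem_cons_of_mem _ hm, hne⟩
    · exact ⟨it, List.mem_cons_self, hok⟩

theorem step_ok (b : Bool) (it : Item) (bs₁ bs₂ : List Bool) (h : it.ok (b :: bs₁) bs₂) :
    (it.step b).ok bs₁ bs₂ := by
  obtain ⟨r, a, u⟩ := it
  cases r with
  | nil =>
    have h1 : val [] bs₁ = 0 := by cases bs₁ <;> rfl
    have h2 : val [] (b :: bs₁) = 0 := rfl
    simp only [Item.ok, Item.step] at h ⊢
    rw [h2] at h
    rw [h1]
    exact h
  | cons m ms =>
    simp only [Item.ok, Item.step, val] at h ⊢
    have : ((a + m * sg b) % 5 + val ms bs₁) % 5 = (a + (m * sg b + val ms bs₁)) % 5 := by omega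
    rw [this]
    exact h

theorem search_sound (bs₂ : List Bool) (top : ℕ) (htop : top.testBit (idx bs₂) = true) :
    ∀ (h : ℕ) (L : List Item), search h top L = true → ∀ bs₁ : List Bool, bs₁.length = h →
      ∃ it ∈ L, ¬ it.ok bs₁ bs₂ := by
  intro h
  induction h with
  | zero =>
    intro L hs bs₁ hl
    have : bs₁ = [] := by simpa using hl
    subst this
    exact leaf_sound bs₂ L top htop hs
  | succ h ih =>
    intro L hs bs₁ hl
    cases bs₁ with
    | nil => simp at hl
    | cons b bs₁ =>
      have hl' : bs₁.length = h := by simpa using hl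
      simp only [search, Bool.and_eq_true] at hs
      have hb : search h top (L.map (Item.step b)) = true := by
        cases b
        · exact hs.2
        · exact hs.1
      obtain ⟨it', hm, hne⟩ := ih _ hb bs₁ hl'
      obtain ⟨it, hit, rfl⟩ := List.mem_map.mp hm
      exact ⟨it, hit, fun hok => hne (step_ok b it bs₁ bs₂ hok)⟩

/-- The start of the search: a row, its first bit being `true`. -/
def start (h : ℕ) (row : List ℕ) : Item :=
  (⟨row.take h, 0, good (tab (row.drop h))⟩ : Item).step true

theorem val_append (r₁ r₂ : List ℕ) (bs₁ bs₂ : List Bool) (h : r₁.length = bs₁.length) :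
    val (r₁ ++ r₂) (bs₁ ++ bs₂) = val r₁ bs₁ + val r₂ bs₂ := by
  induction r₁ generalizing bs₁ with
  | nil =>
    have : bs₁ = [] := by simpa using h.symm
    subst this
    simp [val]
  | cons m ms ih =>
    cases bs₁ with
    | nil => simp at h
    | cons b bs₁ =>
      have h' : ms.length = bs₁.length := by simpa using h
      simp only [List.cons_append, val, ih bs₁ h', Nat.add_assoc]

/-- **Soundness of the whole search.** -/
theorem main_sound (h l : ℕ) (rows : List (List ℕ)) (hrows : ∀ row ∈ rows, row.length = (h + 1) + l)
    (hs : search h (2 ^ (2 ^ l) - 1) (rows.map (start (h + 1))) = true)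
    (bs : List Bool) (hbs : bs.length = h + l) :
    ∃ row ∈ rows, ¬ (val row (true :: bs) % 5 = 1 ∨ val row (true :: bs) % 5 = 4) := by
  set bs₁ := bs.take h with hbs₁
  set bs₂ := bs.drop h with hbs₂
  have hl1 : bs₁.length = h := by rw [hbs₁, List.length_take]; omega
  have hl2 : bs₂.length = l := by rw [hbs₂, List.length_drop]; omega
  have htop : (2 ^ (2 ^ l) - 1).testBit (idx bs₂) = true := by
    rw [Nat.testBit_two_pow_sub_one]
    have := idx_lt bs₂
    rw [hl2] at this
    simpa using this
  obtain ⟨it, hit, hne⟩ := search_sound bs₂ _ htop h _ hs bs₁ hl1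
  obtain ⟨row, hrow, rfl⟩ := List.mem_map.mp hit
  refine ⟨row, hrow, fun hgood => hne ?_⟩
  unfold start
  apply step_ok
  have hrl := hrows row hrow
  have e1 : val row (true :: bs) = val (row.take (h + 1)) (true :: bs₁)
      + val (row.drop (h + 1)) bs₂ := by
    conv_lhs => rw [← List.take_append_drop (h + 1) row, ← List.take_append_drop h bs,
      ← List.cons_append]
    rw [val_append]
    rw [List.length_take, List.length_cons, List.length_take, hrl, hbs]
    omega
  have hl3 : bs₂.length = (row.drop (h + 1)).length := by
    rw [hl2, List.length_drop, hrl]; omega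
  have := good_sound (row.drop (h + 1)) bs₂ hl3 (val (row.take (h + 1)) (true :: bs₁))
    (by rw [← e1]; exact hgood)
  simpa [Item.ok] using this

end Pool.Agent.W_MP_f12850_co
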